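import Pool.Agent.H500.R2.Stm
import Pool.Agent.H354.HC.Deg
import Pool.Graph.R_seed8.W401.Cheb.Frob

set_option autoImplicit false
set_option linter.unusedSectionVars false

/-!
# Characters of bounded order which are trivial on a large set are unramified at `l`
-/

namespace Pool.Agent.H225.R2.Cyc

open NumberField IsDedekindDomain Filter Topology Polynomial
open Pool.Agent.W401.Cheb (GK IsFrob IsInert dens)
open Pool.Agent.H500.HC (InRay em typ)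
open Pool.Agent.H500.R2
open Pool.Agent.W528.Ord (dens_nonneg dens_mono dens_or)
open Pool.Agent.H500.Kum (dens_fin fin_mem)

section dens

variable {K : Type} [Field K] [NumberField K] {P Q : HeightOneSpectrum (𝓞 K) → Prop}

theorem dens_zero_mono (h : ∀ v, P v → Q v) (hQ : Tendsto (dens Q) atTop (𝓝 0)) :
    Tendsto (dens P) atTop (𝓝 0) :=
  squeeze_zero (fun N => dens_nonneg P N) (fun N => dens_mono h N) hQ

theorem dens_zero_or (hP : Tendsto (dens P) atTop (𝓝 0)) (hQ : Tendsto (dens Q) atTop (𝓝 0)) :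
    Tendsto (dens fun v => P v ∨ Q v) atTop (𝓝 0) := by
  have h1 := hP.add hQ
  rw [add_zero] at h1
  exact squeeze_zero (fun N => dens_nonneg _ N) (fun N => dens_or P Q N) h1

theorem dens_zero_finset {ι : Type} (s : Finset ι) (Q : ι → HeightOneSpectrum (𝓞 K) → Prop)
    (h : ∀ i ∈ s, Tendsto (dens (Q i)) atTop (𝓝 0)) :
    Tendsto (dens fun v => ∃ i ∈ s, Q i v) atTop (𝓝 0) := by
  classical
  induction s using Finset.induction_on with
  | empty =>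
    refine dens_zero_mono (Q := fun _ => False) ?_ (dens_fin _ (by simp))
    rintro v ⟨i, hi, -⟩
    exact absurd hi (Finset.notMem_empty i)
  | insert i s his ih =>
    refine dens_zero_mono (Q := fun v => Q i v ∨ ∃ j ∈ s, Q j v) ?_
      (dens_zero_or (h i (Finset.mem_insert_self i s))
        (ih fun j hj => h j (Finset.mem_insert_of_mem hj)))
    rintro v ⟨j, hj, hjv⟩
    rw [Finset.mem_insert] at hj
    rcases hj with rfl | hj
    · exact Or.inl hjv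
    · exact Or.inr ⟨j, hj, hjv⟩

end dens

section core

variable {K E : Type} [Field K] [NumberField K] [Field E] [NumberField E]

theorem em_ne {x : 𝓞 K} (hx : x ≠ 0) (σ : K →+* E) : em σ x ≠ 0 := by
  intro h
  apply hx
  have h1 : ((em σ x : 𝓞 E) : E) = 0 := by
    rw [h]
    exact map_zero (algebraMap (𝓞 E) E)
  have h2 : σ (x : K) = 0 := h1
  have h3 : (x : K) = 0 := (map_eq_zero σ).1 h2
  exact_mod_cast h3

theorem typ_ne {x : 𝓞 K} (hx : x ≠ 0) (c : (K →+* E) → ℕ) : typ c x ≠ 0 := by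
  unfold typ
  exact Finset.prod_ne_zero_iff.2 fun σ _ => pow_ne_zero _ (em_ne hx σ)

/-- the residue characteristics -/
theorem norm_mem {w : HeightOneSpectrum (𝓞 K)} {lam : HeightOneSpectrum (𝓞 E)}
    (hp : (Ideal.absNorm lam.asIdeal).Prime)
    (h : ((Ideal.absNorm lam.asIdeal : ℕ) : 𝓞 K) ∈ w.asIdeal) :
    ((Ideal.absNorm w.asIdeal : ℕ) : 𝓞 E) ∈ lam.asIdeal := by
  have h1 : Ideal.absNorm lam.asIdeal ∣ Ideal.absNorm w.asIdeal := by
    by_contra hcon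
    have h2 : Nat.Coprime (Ideal.absNorm lam.asIdeal) (Ideal.absNorm w.asIdeal) :=
      (Nat.Prime.coprime_iff_not_dvd hp).2 hcon
    obtain ⟨a, b, hab⟩ := Nat.isCoprime_iff_coprime.2 h2
    have h3 : (1 : 𝓞 K) ∈ w.asIdeal := by
      have h4 : ((a * (Ideal.absNorm lam.asIdeal : ℤ) + b * (Ideal.absNorm w.asIdeal : ℤ) : ℤ) :
          𝓞 K) = 1 := by rw [hab]; norm_num
      rw [← h4]
      push_cast
      exact w.asIdeal.add_mem (w.asIdeal.mul_mem_left _ h)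
        (w.asIdeal.mul_mem_left _ (Ideal.absNorm_mem _))
    exact w.isPrime.ne_top ((Ideal.eq_top_iff_one _).2 h3)
  obtain ⟨t, ht⟩ := h1
  rw [ht, Nat.cast_mul]
  exact lam.asIdeal.mul_mem_right _ (Ideal.absNorm_mem _)

/-- the places for one pair `(r, c)` -/
def Qs (W : HeightOneSpectrum (𝓞 E) → (GK K →* ℂˣ) → Prop) (N m r : ℕ) (c : (K →+* E) → ℕ)
    (lam : HeightOneSpectrum (𝓞 E)) : Prop :=
  (Ideal.absNorm lam.asIdeal).Prime ∧ r ∣ Ideal.absNorm lam.asIdeal - 1 ∧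
  ∃ (θ : GK K →* ℂˣ) (χ : Ideal (𝓞 K) →*₀ ℂ), W lam θ ∧
    ChD (N * Ideal.absNorm lam.asIdeal) θ χ ∧
    ∀ x : 𝓞 K, InRay (N ^ (m + 2)) x → (∀ σ : K →+* E, em σ x ∉ lam.asIdeal) →
      χ (Ideal.span {x}) = 1 → typ c x ^ ((Ideal.absNorm lam.asIdeal - 1) / r) - 1 ∈ lam.asIdeal

theorem core (h3 : S_CB1) (h4 : S_CB2)
    (hcard : Fintype.card (K →+* E) = Module.finrank ℚ K) {N m : ℕ} (hN : 2 ≤ N)
    {V : Set (HeightOneSpectrum (𝓞 K))} (hV : V.Infinite)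
    (hVs : ∀ v ∈ V, (N : 𝓞 K) ∉ v.asIdeal ∧ SpC E v)
    (W : HeightOneSpectrum (𝓞 E) → (GK K →* ℂˣ) → Prop)
    (hfin : ∀ v ∈ V, {lam | ∃ θ, W lam θ ∧ ∃ σ, IsFrob v σ ∧ θ σ ≠ 1}.Finite)
    {r : ℕ} (hr : r.Prime) {c : (K →+* E) → ℕ} (hc : ∃ σ, ¬ r ∣ c σ) :
    Tendsto (dens (Qs W N m r c)) atTop (𝓝 0) := by
  classical
  rw [Metric.tendsto_atTop]
  intro ε hε
  have hr1 : (1 : ℝ) < r := by exact_mod_cast hr.one_lt
  obtain ⟨s, hs⟩ : ∃ s : ℕ, 1 / (r : ℝ) ^ s < ε / 2 := by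
    obtain ⟨s, hs⟩ := exists_pow_lt_of_lt_one (half_pos hε)
      (show 1 / (r : ℝ) < 1 by rw [div_lt_one (by linarith)]; exact hr1)
    exact ⟨s, by rwa [one_div_pow] at hs⟩
  obtain ⟨T, x, hTV, hx, hind⟩ := h3 K E hcard (N ^ (m + 2)) r s c (by positivity) hr hc V hV
    (fun v hv => ⟨fun hmem => (hVs v hv).1 (by
      rw [Nat.cast_pow] at hmem
      exact v.isPrime.mem_of_pow_mem _ hmem), (hVs v hv).2⟩)
  have hx0 : ∀ i, x i ≠ 0 := fun i => (hx i).1.1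
  have h5 := h4 E r s (fun i => typ c (x i)) hr (fun i => typ_ne (hx0 i) c) hind
    (fun lam => r ∣ Ideal.absNorm lam.asIdeal - 1 ∧ ∀ i, typ c (x i) ∉ lam.asIdeal →
      typ c (x i) ^ ((Ideal.absNorm lam.asIdeal - 1) / r) - 1 ∈ lam.asIdeal)
    (fun lam hl => hl) (ε / 2) hs
  -- the exceptional places
  have hX1 : {lam : HeightOneSpectrum (𝓞 E) | ∃ i, ∃ σ : K →+* E, em σ (x i) ∈ lam.asIdeal}.Finite := by
    have : {lam : HeightOneSpectrum (𝓞 E) | ∃ i, ∃ σ : K →+* E, em σ (x i) ∈ lam.asIdeal} =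
        ⋃ i, ⋃ σ : K →+* E, {lam : HeightOneSpectrum (𝓞 E) | em σ (x i) ∈ lam.asIdeal} := by
      ext lam
      simp only [Set.mem_iUnion, Set.mem_ofPred_eq]
    rw [this]
    exact Set.finite_iUnion fun i => Set.finite_iUnion fun σ => fin_mem (em_ne (hx0 i) σ)
  have hX2 : {lam : HeightOneSpectrum (𝓞 E) | ∃ w ∈ T,
      ((Ideal.absNorm w.asIdeal : ℕ) : 𝓞 E) ∈ lam.asIdeal}.Finite := by
    have : {lam : HeightOneSpectrum (𝓞 E) | ∃ w ∈ T,
        ((Ideal.absNorm w.asIdeal : ℕ) : 𝓞 E) ∈ lam.asIdeal} =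
        ⋃ w ∈ T, {lam : HeightOneSpectrum (𝓞 E) |
          ((Ideal.absNorm w.asIdeal : ℕ) : 𝓞 E) ∈ lam.asIdeal} := by
      ext lam
      simp only [Set.mem_iUnion, Set.mem_ofPred_eq, exists_prop]
    rw [this]
    refine T.finite_toSet.biUnion fun w _ => fin_mem ?_
    rw [Nat.cast_ne_zero]
    intro h0
    exact w.ne_bot (Ideal.absNorm_eq_zero_iff.1 h0)
  have hX3 : {lam : HeightOneSpectrum (𝓞 E) | ∃ w ∈ T, ∃ θ, W lam θ ∧
      ∃ σ, IsFrob w σ ∧ θ σ ≠ 1}.Finite := by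
    have : {lam : HeightOneSpectrum (𝓞 E) | ∃ w ∈ T, ∃ θ, W lam θ ∧
        ∃ σ, IsFrob w σ ∧ θ σ ≠ 1} =
        ⋃ w ∈ T, {lam : HeightOneSpectrum (𝓞 E) | ∃ θ, W lam θ ∧
          ∃ σ, IsFrob w σ ∧ θ σ ≠ 1} := by
      ext lam
      simp only [Set.mem_iUnion, Set.mem_ofPred_eq, exists_prop]
    rw [this]
    exact T.finite_toSet.biUnion fun w hw => hfin w (hTV w hw)
  obtain ⟨X, hXdef⟩ : ∃ X : HeightOneSpectrum (𝓞 E) → Prop, X = fun lam =>
      (∃ i, ∃ σ : K →+* E, em σ (x i) ∈ lam.asIdeal) ∨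
      ((∃ w ∈ T, ((Ideal.absNorm w.asIdeal : ℕ) : 𝓞 E) ∈ lam.asIdeal) ∨
      (∃ w ∈ T, ∃ θ, W lam θ ∧ ∃ σ, IsFrob w σ ∧ θ σ ≠ 1)) := ⟨_, rfl⟩
  have hX : Tendsto (dens X) atTop (𝓝 0) := by
    rw [hXdef]
    exact dens_zero_or (dens_fin _ hX1) (dens_zero_or (dens_fin _ hX2) (dens_fin _ hX3))
  have h6 : ∀ᶠ n in atTop, dens X n < ε / 2 := hX.eventually (gt_mem_nhds (half_pos hε))
  obtain ⟨n0, hn0⟩ := eventually_atTop.1 (h5.and h6)
  refine ⟨n0, fun n hn => ?_⟩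
  rw [Real.dist_eq, sub_zero, abs_of_nonneg (dens_nonneg _ _)]
  obtain ⟨h7, h8⟩ := hn0 n hn
  refine lt_of_le_of_lt ((dens_mono ?_ n).trans (dens_or _ _ n)) (add_lt_add_of_le_of_lt h7 h8 |>.trans_eq (add_halves ε))
  rintro lam ⟨hp, hrl, θ, χ, hWl, hχ, hpr⟩
  by_cases hXl : X lam
  · exact Or.inr hXl
  left
  rw [hXdef] at hXl
  push Not at hXl
  obtain ⟨e1, e2, e3⟩ := hXl
  refine ⟨hrl, fun i _ => ?_⟩
  obtain ⟨hray, w, hw, w1, hw1, e, hspan⟩ := hx i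
  refine hpr (x i) hray (fun σ => e1 i σ) ?_
  have hone : ∀ w ∈ T, χ w.asIdeal = 1 := by
    intro w hw
    obtain ⟨σ, hσ⟩ := (Pool.Agent.W401.Frob.main K).1 w
    rw [hχ.frob w ?_ σ hσ, e3 w hw θ hWl σ hσ, Units.val_one]
    intro hmem
    rw [Nat.cast_mul] at hmem
    rcases w.isPrime.mem_or_mem hmem with h9 | h9
    · exact (hVs w (hTV w hw)).1 h9
    · exact e2 w hw (norm_mem hp h9)
  rw [← hspan, map_mul, map_pow, hone w hw, hone w1 hw1, one_pow, mul_one]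

end core

theorem main : S_Str → S_Pig → S_CB1 → S_CB2 → S_Cyc := by
  intro h1 h2 h3 h4 K E _ _ _ _ hcard N m hN hm V hV hVs W hW hfin
  classical
  obtain ⟨B, hB⟩ := h1 K E hcard N m hN hm
  have hdeg := Pool.Agent.H354.HC.Deg.main E
  have hsm : Tendsto (dens fun lam : HeightOneSpectrum (𝓞 E) =>
      Ideal.absNorm lam.asIdeal ≤ B) atTop (𝓝 0) :=
    dens_fin _ (Pool.Agent.W352.ChAbs.finite_le B)
  have hpg := dens_fin _ (h2 K E N (m + 2) m (by omega) hm)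
  have hQ : Tendsto (dens fun lam : HeightOneSpectrum (𝓞 E) =>
      ∃ rc ∈ (Nat.divisors m) ×ˢ (Fintype.piFinset fun _ : K →+* E => Finset.range m),
        (rc.1.Prime ∧ ∃ σ, ¬ rc.1 ∣ rc.2 σ) ∧ Qs W N m rc.1 rc.2 lam) atTop (𝓝 0) := by
    refine dens_zero_finset _ _ fun rc _ => ?_
    by_cases hrc : rc.1.Prime ∧ ∃ σ, ¬ rc.1 ∣ rc.2 σ
    · exact dens_zero_mono (fun lam hl => hl.2) (core h3 h4 hcard hN hV hVs W hfin hrc.1 hrc.2)
    · refine dens_zero_mono (Q := fun _ => False) (fun lam hl => hrc hl.1) (dens_fin _ (by simp))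
  refine dens_zero_mono ?_ (dens_zero_or hdeg (dens_zero_or hsm (dens_zero_or hpg hQ)))
  rintro lam ⟨θ, hWl, hunr⟩
  by_cases hp : (Ideal.absNorm lam.asIdeal).Prime
  swap
  · exact Or.inl hp
  right
  by_cases hb : Ideal.absNorm lam.asIdeal ≤ B
  · exact Or.inl hb
  right
  obtain ⟨ho, hpow, hun⟩ := hW lam θ hWl
  obtain ⟨χ, hχ, hcase⟩ := hB lam hp (not_le.1 hb) θ ho hpow hun
  rcases hcase with hcase | ⟨r, c, hr, hrm, hrl, hcσ, hclt, hpr⟩
  · left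
    exact ⟨hp, θ, χ, ho, hpow, hun, hunr, hχ, hcase⟩
  · right
    refine ⟨(r, c), ?_, ⟨hr, hcσ⟩, hp, hrl, θ, χ, hWl, hχ, hpr⟩
    rw [Finset.mem_product, Nat.mem_divisors, Fintype.mem_piFinset]
    exact ⟨⟨hrm, hm.ne'⟩, fun σ => Finset.mem_range.2 ((hclt σ).trans_le (Nat.le_of_dvd hm hrm))⟩

end Pool.Agent.H225.R2.Cyc
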